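import Pool.Agent.HOA.KMain

/-!
# Pluricanonical sections of manifolds with a holomorphic Anosov diffeomorphism
-/

open scoped Manifold ContDiff

namespace Pool.Agent.Results.MP_2bbe3e_an.Canonical

open Pool.Agent.HOA

/-- Let `f` be a holomorphic Anosov diffeomorphism of the compact connected complex manifold `M`,
`m > 0` and `s` a nonzero holomorphic section of the `m`-th power of the canonical bundle. Then
`s` has no zero, every other section is a constant multiple of `s`, and `f` multiplies `s` by a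
constant of modulus one (so `f` preserves the smooth volume `|s| ^ (2 / m)`). -/
theorem result {E : Type} [NormedAddCommGroup E] [NormedSpace ℂ E] [FiniteDimensional ℂ E]
    {M : Type} [TopologicalSpace M] [T2Space M] [CompactSpace M] [ConnectedSpace M]
    [ChartedSpace E M] [IsManifold 𝓘(ℂ, E) ω M]
    (f : Diffeomorph 𝓘(ℂ, E) 𝓘(ℂ, E) M M ω) (hf : IsAnosov (E := E) f)
    (m : ℤ) (hm : 0 < m) (s : OpenPartialHomeomorph M E → E → ℂ) (hs : CanSec m s)
    (h0 : ∃ e ∈ atlas E M, ∃ z ∈ e.target, s e z ≠ 0) :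
    (∀ e ∈ atlas E M, ∀ z ∈ e.target, s e z ≠ 0) ∧
    (∀ s' : OpenPartialHomeomorph M E → E → ℂ, CanSec m s' →
      ∃ a : ℂ, ∀ e ∈ atlas E M, ∀ z ∈ e.target, s' e z = a * s e z) ∧
    ∃ l : ℂ, ‖l‖ = 1 ∧ ∀ e ∈ atlas E M, ∀ e' ∈ atlas E M, ∀ z ∈ e.target,
      f (e.symm z) ∈ e'.source →
      s e' (e' (f (e.symm z))) * (fderiv ℂ (e' ∘ f ∘ e.symm) z).det ^ m = l * s e z := by
  obtain ⟨N, Es, Eu, C, ν, hyp⟩ := hf
  obtain ⟨S, hS, hSs⟩ := mem_of_canSec hs
  have hS0 : S ≠ 0 := by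
    rintro rfl
    obtain ⟨e, he, z, hz, hne⟩ := h0
    apply hne
    rw [← hSs e he z hz]
    simp [kloc]
  obtain ⟨h1, h2, l, hl, hpb⟩ := canonical_main hyp hm hS hS0
  refine ⟨?_, ?_, l, hl, ?_⟩
  · intro e he z hz
    rw [← hSs e he z hz]
    have := (kloc_ne_zero m S he (e.map_target hz)).2 (h1 _)
    rwa [e.right_inv hz] at this
  · intro s' hs'
    obtain ⟨S', hS', hSs'⟩ := mem_of_canSec hs'
    obtain ⟨a, ha⟩ := h2 S' hS'
    refine ⟨a, fun e he z hz => ?_⟩
    rw [← hSs e he z hz, ← hSs' e he z hz, ha]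
    simp [kloc, mul_assoc]
  · intro e he e' he' z hz hz'
    have h3 := kloc_pb f m S he he' hz hz'
    rw [hpb] at h3
    have h4 : kloc m (l • S) e z = l * kloc m S e z := by simp [kloc, mul_assoc]
    rw [h4, hSs e he z hz] at h3
    have h5 : lmap e f e' z = e' (f (e.symm z)) := rfl
    have h6 : e' (f (e.symm z)) ∈ e'.target := e'.map_source hz'
    rw [h5, hSs e' he' _ h6] at h3
    exact h3.symm

end Pool.Agent.Results.MP_2bbe3e_an.Canonical
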