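import Pool.Agent.HOG.Final

/-!
# Holomorphic Anosov diffeomorphisms and holomorphic covariant tensors
-/

open scoped Manifold ContDiff

namespace Pool.Agent.Results.MP_2bbe3e_an.CovariantTensors

open Pool.Agent.HOA Pool.Agent.HOG

/-- Let `f` be a holomorphic Anosov diffeomorphism of the compact connected complex manifold `M`.
If at one point `x₁` for every nonzero tangent vector `ξ` there is a holomorphic covariant tensor
`τ` on `M` of some degree `k ≥ 1` (for instance a symmetric differential) with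
`τ (ξ, ..., ξ) ≠ 0`, then `M` has an infra-nilmanifold structure (given by local holomorphic frames
with constant nilpotent structure constants and finite holonomy) for which `f` is affine. -/
theorem result {E : Type} [NormedAddCommGroup E] [NormedSpace ℂ E] [FiniteDimensional ℂ E]
    {M : Type} [TopologicalSpace M] [T2Space M] [CompactSpace M] [ConnectedSpace M]
    [ChartedSpace E M] [IsManifold 𝓘(ℂ, E) ω M]
    (f : Diffeomorph 𝓘(ℂ, E) 𝓘(ℂ, E) M M ω) (hf : IsAnosov (E := E) f) (x₁ : M)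
    (h : ∀ ξ : TangentSpace 𝓘(ℂ, E) x₁, ξ ≠ 0 → ∃ k : ℕ, 1 ≤ k ∧
      ∃ τ : (x : M) → MultilinearMap ℂ (fun _ : Fin k => TangentSpace 𝓘(ℂ, E) x) ℂ,
        HolTensor k τ ∧ τ x₁ (fun _ => ξ) ≠ 0) :
    ∃ (𝓕 : (x : M) → Set (Fin (Module.finrank ℂ E) → TangentSpace 𝓘(ℂ, E) x))
      (H : Subgroup (GL (Fin (Module.finrank ℂ E)) ℂ))
      (c : Fin (Module.finrank ℂ E) → Fin (Module.finrank ℂ E) → Fin (Module.finrank ℂ E) → ℂ)
      (a : GL (Fin (Module.finrank ℂ E)) ℂ), InfraFrame f 𝓕 H c a := by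
  obtain ⟨N, Es, Eu, C, ν, hyp⟩ := hf
  refine infra_main hyp x₁ fun ξ hξ => ?_
  obtain ⟨k, hk, τ, hτ, hne⟩ := h ξ hξ
  exact ⟨k, hk, ⟨τ, hτ⟩, hne⟩

end Pool.Agent.Results.MP_2bbe3e_an.CovariantTensors
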