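import Pool.Agent.LRA.Final

/-!
# Local rigidity: complex structures invariant under Anosov diffeomorphisms near linear ones
-/

set_option autoImplicit false

namespace Pool.Agent.Results.MP_2bbe3e_an.LocalRigidity

open LRA

/-- Let `A` be an invertible integer matrix without complex eigenvalue of modulus one. If `f` is
(the lift of) a diffeomorphism of the torus homotopic to `A`, `C¹`-close to `A` with a bounded
`α`-Hölder constant of the derivative, and `J` is ANY smooth complex structure of the torus
invariant under `f` (with a bound `R` for `J` at one point if `A` has multiple eigenvalues), then a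
smooth diffeomorphism `h` homotopic to the identity carries `J` to a constant complex structure
`J₁` and conjugates `f` to the linear automorphism `A` of the complex torus. -/
theorem result {d : ℕ} (A : Matrix (Fin d) (Fin d) ℤ) (hdet : IsUnit A.det)
    (hyp : ∀ z : ℂ, (A.map (Int.cast : ℤ → ℂ)).charpoly.IsRoot z → ‖z‖ ≠ 1)
    (α B R : ℝ) (hα : 0 < α) (hα1 : α ≤ 1) :
    ∃ ε : ℝ, 0 < ε ∧ ∀ f : V d → V d, Near A α B ε f →
      ∀ J : V d → Matrix (Fin d) (Fin d) ℝ, CSt J → Hol f J J →
        ((A.map (Int.cast : ℤ → ℂ)).charpoly.Separable ∨ ∃ x, ∀ i j, |J x i j| ≤ R) →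
          Linearizable A f J :=
  final A hdet hyp α B R hα hα1

end Pool.Agent.Results.MP_2bbe3e_an.LocalRigidity
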