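import Pool.Agent.HOA.FieldsMain

/-!
# Holomorphic Anosov diffeomorphisms of almost homogeneous manifolds
-/

open scoped Manifold ContDiff

namespace Pool.Agent.Results.MP_2bbe3e_an.Nilmanifold

open Pool.Agent.HOA

/-- Let `f` be a holomorphic Anosov diffeomorphism of the compact connected complex manifold `M`.
If at one point `x₁` every tangent vector is the value of a global holomorphic vector field, then
`M` has a global holomorphic frame with constant nilpotent structure constants on which `f` acts by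
a constant triangular matrix. -/
theorem result {E : Type} [NormedAddCommGroup E] [NormedSpace ℂ E] [FiniteDimensional ℂ E]
    {M : Type} [TopologicalSpace M] [T2Space M] [CompactSpace M] [ConnectedSpace M]
    [ChartedSpace E M] [IsManifold 𝓘(ℂ, E) ω M]
    (f : Diffeomorph 𝓘(ℂ, E) 𝓘(ℂ, E) M M ω) (hf : IsAnosov (E := E) f) (x₁ : M)
    (h : ∀ ξ : TangentSpace 𝓘(ℂ, E) x₁, ∃ X : (x : M) → TangentSpace 𝓘(ℂ, E) x,
        HolField X ∧ X x₁ = ξ) :
    ∃ (X : Fin (Module.finrank ℂ E) → (x : M) → TangentSpace 𝓘(ℂ, E) x)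
      (c : Fin (Module.finrank ℂ E) → Fin (Module.finrank ℂ E) → Fin (Module.finrank ℂ E) → ℂ)
      (a : Fin (Module.finrank ℂ E) → Fin (Module.finrank ℂ E) → ℂ), NilFrame f X c a := by
  obtain ⟨N, Es, Eu, C, ν, hyp⟩ := hf
  apply fields_main hyp x₁
  rw [eq_top_iff]
  intro ξ _
  obtain ⟨X, hX, hXξ⟩ := h ξ
  exact Submodule.subset_span ⟨⟨X, hX⟩, hXξ⟩

end Pool.Agent.Results.MP_2bbe3e_an.Nilmanifold
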